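import Pool.Agent.Lib.MP_904b2a_gt.Interfaces2

/-!
# MP_904b2a_gt, module CHE-top (helper78), part 1: the unitary group is path connected
-/

open scoped BigOperators Matrix
open Metric Set

namespace Pool.Agent.Lib.MP_904b2a_gt

noncomputable section

open scoped Matrix.Norms.L2Operator in
theorem joined_one_unitary {r : ℕ} (u : UG r) (hu : (-1 : ℂ) ∉ spectrum ℂ (u : Matrix (Fin r) (Fin r) ℂ)) :
    Joined (1 : UG r) u := by
  have h := (Unitary.norm_sub_one_lt_two_iff (A := Matrix (Fin r) (Fin r) ℂ) u.2).mpr hu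
  exact Unitary.joined (A := Matrix (Fin r) (Fin r) ℂ) 1 u h

/-- Scalar multiplication of unitary matrices with complex numbers of modulus one. -/
def UG.csmul {r : ℕ} (z : Circle) (u : UG r) : UG r :=
  ⟨(z : ℂ) • (u : Matrix (Fin r) (Fin r) ℂ), by
    rw [Matrix.mem_unitaryGroup_iff', Matrix.star_eq_conjTranspose, Matrix.conjTranspose_smul,
      Matrix.smul_mul, Matrix.mul_smul, smul_smul, ← Matrix.star_eq_conjTranspose,
      Matrix.mem_unitaryGroup_iff'.mp u.2]
    have : star (z : ℂ) * (z : ℂ) = 1 := by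
      rw [Complex.star_def, ← Complex.normSq_eq_conj_mul_self, Circle.normSq_coe]
      simp
    rw [this, one_smul]⟩

theorem UG.csmul_coe {r : ℕ} (z : Circle) (u : UG r) :
    ((UG.csmul z u : UG r) : Matrix (Fin r) (Fin r) ℂ) = (z : ℂ) • (u : Matrix (Fin r) (Fin r) ℂ) :=
  rfl

theorem UG.continuous_csmul {r : ℕ} :
    Continuous (fun p : Circle × UG r => UG.csmul p.1 p.2) := by
  refine Continuous.subtype_mk ?_ _
  exact (continuous_subtype_val.comp continuous_fst).smul
    (continuous_subtype_val.comp continuous_snd)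

theorem UG.csmul_one {r : ℕ} (u : UG r) : UG.csmul 1 u = u := by
  apply Subtype.ext
  rw [UG.csmul_coe, Circle.coe_one, one_smul]

theorem UG.joined_csmul {r : ℕ} (z : Circle) (u : UG r) : Joined (UG.csmul z u) u := by
  have h : Joined z (1 : Circle) := by
    have h1 : z = Circle.exp (Complex.arg z) := (Circle.exp_arg z).symm
    rw [h1]
    refine ⟨⟨⟨fun t => Circle.exp ((1 - (t : ℝ)) * Complex.arg z), ?_⟩, ?_, ?_⟩⟩
    · fun_prop
    · simp
    · simp
  obtain ⟨γ⟩ := h
  refine ⟨⟨⟨fun t => UG.csmul (γ t) u, ?_⟩, ?_, ?_⟩⟩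
  · exact UG.continuous_csmul.comp (γ.continuous.prodMk continuous_const)
  · simp
  · simp [UG.csmul_one]

/-- **The unitary group is path connected.** -/
theorem uPathStatement : UPathStatement := by
  intro r
  refine ⟨⟨1⟩, ?_⟩
  have key : ∀ u : UG r, Joined (1 : UG r) u := by
    intro u
    -- a point of the circle which is not in the finite spectrum
    have hfin : (spectrum ℂ (u : Matrix (Fin r) (Fin r) ℂ)).Finite :=
      Matrix.finite_spectrum _
    have hinf : (sphere (0 : ℂ) 1).Infinite := by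
      refine IsPreconnected.infinite_of_nontrivial (isPreconnected_sphere ?_ 0 1) ?_
      · rw [Complex.rank_real_complex]
        norm_num
      · exact ⟨1, by simp, -1, by simp, by norm_num⟩
    obtain ⟨w, hw, hw'⟩ := (hinf.sdiff hfin).nonempty
    have hw1 : ‖w‖ = 1 := mem_sphere_zero_iff_norm.mp hw
    have hw0 : w ≠ 0 := by
      rintro rfl
      simp at hw1
    -- the point `z` with `z w = -1`
    let z : Circle := ⟨-w⁻¹, mem_sphere_zero_iff_norm.mpr (by rw [norm_neg, norm_inv, hw1, inv_one])⟩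
    have hz : (z : ℂ) = -w⁻¹ := rfl
    refine (joined_one_unitary (UG.csmul z u) ?_).trans (UG.joined_csmul z u)
    rw [UG.csmul_coe, hz]
    intro h
    apply hw'
    rw [spectrum.mem_iff] at h ⊢
    intro h2
    apply h
    have h3 : algebraMap ℂ (Matrix (Fin r) (Fin r) ℂ) (-1) - (-w⁻¹) • (u : Matrix (Fin r) (Fin r) ℂ) =
        (-w⁻¹) • (algebraMap ℂ (Matrix (Fin r) (Fin r) ℂ) w - (u : Matrix (Fin r) (Fin r) ℂ)) := by
      rw [smul_sub, Algebra.algebraMap_eq_smul_one, Algebra.algebraMap_eq_smul_one, smul_smul,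
        neg_mul, inv_mul_cancel₀ hw0]
    rw [h3]
    exact (isUnit_smul_iff (Units.mk0 (-w⁻¹) (neg_ne_zero.mpr (inv_ne_zero hw0))) _).mpr h2
  exact fun u v => (key u).symm.trans (key v)

end

end Pool.Agent.Lib.MP_904b2a_gt
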