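import Pool.Agent.Lib.MP_904b2a_gt.H78.Beta
import Pool.Agent.Lib.MP_904b2a_gt.H78.UPath

/-!
# MP_904b2a_gt, module CHE (helper78), part 9: the factorisation structure `CheFac`
-/

open scoped BigOperators Matrix
open Metric Set

namespace Pool.Agent.Lib.MP_904b2a_gt

noncomputable section

/-- The generator of the top cohomology of the sphere. -/
theorem exists_gen (hS : SphereCohStatement) (j : ℕ) :
    ∃ ι : H (2 * j + 1) (Sph (j + 1)) ℤ, ∀ c : H (2 * j + 1) (Sph (j + 1)) ℤ, ∃ n : ℤ, c = n • ι := by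
  obtain ⟨e, -⟩ := (hS.2 (j + 1) (by omega)).top
  let e' : H (2 * j + 1) (Sph (j + 1)) ℤ ≃+ ℤ := e ℤ
  refine ⟨e'.symm 1, fun c => ⟨e' c, ?_⟩⟩
  apply e'.injective
  rw [map_zsmul, AddEquiv.apply_symm_apply, smul_eq_mul, mul_one]

/-- The case `j = 0`: `U(1) = S¹`. -/
def sphToU : C(Sph (0 + 1), UG (0 + 1)) where
  toFun v := ⟨Matrix.of (fun _ _ => v.1 0), by
    rw [Matrix.mem_unitaryGroup_iff']
    ext a b
    have ha : a = 0 := Fin.fin_one_eq_zero a
    have hb : b = 0 := Fin.fin_one_eq_zero b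
    subst ha
    subst hb
    have h := Sph.sum_eq (j := 0) v
    rw [Fin.sum_univ_succ, Finset.univ_eq_empty, Finset.sum_empty, add_zero] at h
    rw [Matrix.mul_apply, Fin.sum_univ_succ, Finset.univ_eq_empty, Finset.sum_empty, add_zero,
      Matrix.one_apply, if_pos rfl]
    exact h⟩
  continuous_toFun := by
    refine Continuous.subtype_mk ?_ _
    refine continuous_matrix (fun _ _ => ?_)
    exact (PiLp.continuous_apply 2 _ 0).comp continuous_subtype_val

theorem sphToU_comp : sphToU.comp (qU 0) = ContinuousMap.id (UG (0 + 1)) := by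
  ext1 u
  apply Subtype.ext
  ext a b
  have ha : a = 0 := Fin.fin_one_eq_zero a
  have hb : b = 0 := Fin.fin_one_eq_zero b
  subst ha
  subst hb
  rfl

/-- C5 for all `j`. -/
theorem exists_sphere_class' (hK : KunnethStatement) (j : ℕ) {x : H (2 * j + 1) (UG (j + 1)) ℤ}
    (prim : ∀ (Y : Type) [TopologicalSpace Y] (u v : C(Y, UG (j + 1))),
      H.pb (u * v) x = H.pb u x + H.pb v x)
    (h0 : H.pb (blkC (succE j)) x = 0) :
    ∃ (ι₀ : H (2 * j + 1) (Sph (j + 1)) ℤ) (m : ℤ), x = m • H.pb (qU j) ι₀ := by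
  rcases Nat.eq_zero_or_pos j with h | h
  · subst h
    refine ⟨H.pb sphToU x, 1, ?_⟩
    rw [one_smul, H.pb_comp, sphToU_comp, H.pb_id]
  · have := uPathStatement j
    exact exists_sphere_class hK h prim h0

/-- **The factorisation** of the class `x_j` on `U(j+1)`. -/
theorem nonempty_cheFac (hK : KunnethStatement) (hS : SphereCohStatement) (dim : DimStatement)
    {𝒞 : ChernTheory} {r : ℕ} (x : CheData 𝒞 r) {j : ℕ} (hj : j < r)
    (hst : H.pb (blkC (succE j)) (H.pb (blkC (lowE (Nat.succ_le_of_lt hj))) (x.x j)) = 0)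
    (f : C(ZZ j, UG (j + 1))) (hf1 : ∀ p, p.1 = 1 → f p = 1)
    (hf : H.pb f (H.pb (blkC (lowE (Nat.succ_le_of_lt hj))) (x.x j)) ≠ 0) :
    Nonempty (CheFac x j) := by
  set x' : H (2 * j + 1) (UG (j + 1)) ℤ := H.pb (blkC (lowE (Nat.succ_le_of_lt hj))) (x.x j)
    with hx'
  have prim : ∀ (Y : Type) [TopologicalSpace Y] (u v : C(Y, UG (j + 1))),
      H.pb (u * v) x' = H.pb u x' + H.pb v x' := by
    intro Y _ u v
    rw [hx', H.pb_comp, H.pb_comp, H.pb_comp, ← x.prim Y _ _ j hj]
    congr 2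
    ext1 y
    exact map_mul (blk (lowE (Nat.succ_le_of_lt hj))) (u y) (v y)
  obtain ⟨ι, hι⟩ := exists_gen hS j
  obtain ⟨ι₀, m, hm⟩ := exists_sphere_class' hK j prim hst
  obtain ⟨m', rfl⟩ := hι ι₀
  rw [map_zsmul, smul_smul] at hm
  obtain ⟨β, hβ⟩ := exists_beta dim prim f hf1 hf
  obtain ⟨b, hb⟩ := hι (H.pb ((qU j).comp β) ι)
  have h1 : H.pb β x' = (m * m') • b • ι := by
    rw [hm, map_zsmul, H.pb_comp, hb]
  refine ⟨{ e := blk (lowE (Nat.succ_le_of_lt hj))
            he := continuous_blk _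
            q := qU j
            β := β
            ι := ι
            k := m * m'
            b := b
            k_ne := ?_
            b_ne := ?_
            gen := hι
            x_eq := hm
            qβ := hb }⟩
  · intro h
    apply hβ
    rw [h1, h, zero_smul]
  · intro h
    apply hβ
    rw [h1, h, zero_smul, smul_zero]

end

end Pool.Agent.Lib.MP_904b2a_gt
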