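import Pool.Agent.Lib.MP_904b2a_gt.Interfaces2

/-!
# MP_904b2a_gt, module CHE-top (helper78), part 2: block inclusions of unitary groups
-/

open scoped BigOperators Matrix
open Metric Set

namespace Pool.Agent.Lib.MP_904b2a_gt

noncomputable section

variable {n κ m : Type} [Fintype n] [DecidableEq n] [Fintype κ] [DecidableEq κ] [Fintype m]
  [DecidableEq m]

theorem blk_mem (σ : n ⊕ κ ≃ m) (u : Matrix.unitaryGroup n ℂ) :
    Matrix.reindex σ σ (Matrix.fromBlocks (u : Matrix n n ℂ) 0 0 1) ∈
      Matrix.unitaryGroup m ℂ := by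
  have hu : (u : Matrix n n ℂ)ᴴ * (u : Matrix n n ℂ) = 1 := Matrix.mem_unitaryGroup_iff'.mp u.2
  rw [Matrix.mem_unitaryGroup_iff', Matrix.star_eq_conjTranspose, Matrix.conjTranspose_reindex,
    Matrix.reindex_apply, Matrix.reindex_apply, Matrix.submatrix_mul_equiv,
    Matrix.fromBlocks_conjTranspose, Matrix.fromBlocks_multiply]
  simp [hu]

/-- The block inclusion `u ↦ diag(u, 1)` of unitary groups, for a decomposition of the index
set. -/
def blk (σ : n ⊕ κ ≃ m) : Matrix.unitaryGroup n ℂ →* Matrix.unitaryGroup m ℂ where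
  toFun u := ⟨Matrix.reindex σ σ (Matrix.fromBlocks (u : Matrix n n ℂ) 0 0 1), blk_mem σ u⟩
  map_one' := by
    apply Subtype.ext
    simp
  map_mul' u v := by
    apply Subtype.ext
    simp only [Matrix.UnitaryGroup.mul_val, Matrix.reindex_apply]
    rw [Matrix.submatrix_mul_equiv, Matrix.fromBlocks_multiply]
    simp

theorem blk_val (σ : n ⊕ κ ≃ m) (u : Matrix.unitaryGroup n ℂ) :
    ((blk σ u : Matrix.unitaryGroup m ℂ) : Matrix m m ℂ) =
      Matrix.reindex σ σ (Matrix.fromBlocks (u : Matrix n n ℂ) 0 0 1) := rfl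

theorem continuous_blk (σ : n ⊕ κ ≃ m) : Continuous (blk σ) := by
  refine Continuous.subtype_mk ?_ _
  exact (continuous_subtype_val.matrix_fromBlocks continuous_const continuous_const
    continuous_const).matrix_submatrix _ _

/-- The block inclusion as a continuous map. -/
def blkC (σ : n ⊕ κ ≃ m) : C(Matrix.unitaryGroup n ℂ, Matrix.unitaryGroup m ℂ) :=
  ⟨blk σ, continuous_blk σ⟩

/-- The decomposition `{0, …, j - 1} ∪ {j, …, r - 1} = {0, …, r - 1}`. -/
def lowE {j r : ℕ} (h : j ≤ r) : Fin j ⊕ Fin (r - j) ≃ Fin r :=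
  finSumFinEquiv.trans (finCongr (by omega))

/-- The decomposition `{1, …, j} ∪ {0} = {0, …, j}`. -/
def succE (j : ℕ) : Fin j ⊕ Unit ≃ Fin (j + 1) where
  toFun := Sum.elim Fin.succ (fun _ => 0)
  invFun := Fin.cases (Sum.inr ()) Sum.inl
  left_inv := by
    rintro (a | a)
    · simp
    · simp
  right_inv a := by
    induction a using Fin.cases with
    | zero => simp
    | succ a => simp

end

end Pool.Agent.Lib.MP_904b2a_gt
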