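import Pool.Agent.Lib.MP_904b2a_gt.H78.CPChart

/-!
# MP_904b2a_gt, module CHE (helper78), part 8: difference operators and the maps
`β : S^{2j+1} → U(j+1)`
-/

open scoped BigOperators Matrix
open Metric Set Module OnePoint Topology

namespace Pool.Agent.Lib.MP_904b2a_gt

noncomputable section

/-- The test space `S¹ × (ℂP¹)^j`. -/
abbrev ZZ (j : ℕ) : Type := Circle × (Fin j → CP1)

/-- The dimension statement for `S¹ × (ℂP¹)^ι`. -/
def DimStatement : Prop :=
  ∀ (ι : Type) [Fintype ι] (n : ℕ), 2 * Fintype.card ι + 1 < n →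
    ∀ u : H n (Circle × (ι → CP1)) ℤ, u = 0

variable {j : ℕ}

/-- Replace the `k`-th coordinate by the base point. -/
def rk (k : Fin j) : C(ZZ j, ZZ j) :=
  ⟨fun p => (p.1, Function.update p.2 k CP1.pt),
    continuous_fst.prodMk (continuous_snd.update k continuous_const)⟩

theorem pb_rk (dim : DimStatement) (k : Fin j) (u : H (2 * j + 1) (ZZ j) ℤ) :
    H.pb (rk k) u = 0 := by
  classical
  let p : C(ZZ j, Circle × ({i : Fin j // i ≠ k} → CP1)) :=
    ⟨fun p => (p.1, fun i => p.2 i.1), by fun_prop⟩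
  let s : C(Circle × ({i : Fin j // i ≠ k} → CP1), ZZ j) :=
    ⟨fun p => (p.1, fun i => if h : i ≠ k then p.2 ⟨i, h⟩ else CP1.pt), by
      refine continuous_fst.prodMk (continuous_pi (fun i => ?_))
      by_cases h : i ≠ k
      · simp only [h, ne_eq, not_false_eq_true, dite_true]
        fun_prop
      · simp only [h, dite_false]
        exact continuous_const⟩
  have h1 : rk k = s.comp p := by
    ext1 q
    change (q.1, Function.update q.2 k CP1.pt) =
      (q.1, fun i => if h : i ≠ k then q.2 i else CP1.pt)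
    congr 1
    funext i
    by_cases h : i = k
    · subst h
      simp
    · simp [h]
  have hj : 0 < j := Fin.pos k
  rw [h1, ← H.pb_comp, dim {i : Fin j // i ≠ k} (2 * j + 1) (by
    rw [Fintype.card_subtype_compl, Fintype.card_fin, Fintype.card_subtype_eq]
    omega) (H.pb s u), map_zero]

variable {G : Type} [Group G] [TopologicalSpace G] [IsTopologicalGroup G]

theorem prim_inv {n : ℕ} {x : H (n + 1) G ℤ}
    (prim : ∀ (Y : Type) [TopologicalSpace Y] (u v : C(Y, G)),
      H.pb (u * v) x = H.pb u x + H.pb v x) {Y : Type} [TopologicalSpace Y] (u : C(Y, G)) :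
    H.pb u⁻¹ x = - H.pb u x := by
  have h := prim Y u u⁻¹
  have h1 : u * u⁻¹ = ContinuousMap.const Y (1 : G) := by
    ext1 y
    exact mul_inv_cancel (u y)
  rw [h1, H.pb_const_map] at h
  exact (neg_eq_of_add_eq_zero_right h.symm).symm

/-- The iterated difference operator. -/
theorem exists_diff (dim : DimStatement) {x : H (2 * j + 1) G ℤ}
    (prim : ∀ (Y : Type) [TopologicalSpace Y] (u v : C(Y, G)),
      H.pb (u * v) x = H.pb u x + H.pb v x) (f : C(ZZ j, G)) (hf1 : ∀ p, p.1 = 1 → f p = 1)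
    (s : Finset (Fin j)) :
    ∃ F : C(ZZ j, G), (∀ p, p.1 = 1 → F p = 1) ∧ (∀ k ∈ s, ∀ p, p.2 k = CP1.pt → F p = 1) ∧
      H.pb F x = H.pb f x := by
  classical
  induction s using Finset.induction_on with
  | empty => exact ⟨f, hf1, by simp, rfl⟩
  | insert k s _ ih =>
    obtain ⟨F, h1, h2, h3⟩ := ih
    refine ⟨F * (F.comp (rk k))⁻¹, fun p hp => ?_, fun k' hk' p hp => ?_, ?_⟩
    · change F p * (F (rk k p))⁻¹ = 1
      rw [h1 p hp, h1 (rk k p) hp, inv_one, mul_one]
    · change F p * (F (rk k p))⁻¹ = 1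
      by_cases hkk : k' = k
      · subst hkk
        have : rk k' p = p := by
          change (p.1, Function.update p.2 k' CP1.pt) = p
          rw [← hp, Function.update_eq_self]
        rw [this, mul_inv_cancel]
      · have hks : k' ∈ s := (Finset.mem_insert.mp hk').resolve_left hkk
        rw [h2 k' hks p hp, h2 k' hks (rk k p) (by
          change Function.update p.2 k CP1.pt k' = CP1.pt
          rw [Function.update_of_ne hkk, hp]), inv_one, mul_one]
    · rw [prim, prim_inv prim, ← H.pb_comp, pb_rk dim, neg_zero, add_zero, h3]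

/-- The model `ℝ × ℂ^j` of `ℝ^{2j+1}`. -/
abbrev VV (j : ℕ) : Type := ℝ × (Fin j → ℂ)

/-- The top cell of the test space. -/
def chartZZ (j : ℕ) : OChart (VV j) (ZZ j) := circleChart.prod (CP1.chart.pow (Fin j))

/-- The one-point compactification of `ℝ^{2j+1}` is the sphere. -/
theorem nonempty_sphere_homeo (j : ℕ) : Nonempty (OnePoint (VV j) ≃ₜ Sph (j + 1)) := by
  have hv : ‖(e₀ j).1‖ = 1 := mem_sphere_zero_iff_norm.mp (e₀ j).2
  have hv0 : (e₀ j).1 ≠ 0 := by
    intro h
    rw [h, norm_zero] at hv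
    exact zero_ne_one hv
  have : Fact (finrank ℝ (EuclideanSpace ℂ (Fin (j + 1))) = (2 * j + 1) + 1) := ⟨by
    rw [finrank_real_of_complex, finrank_euclideanSpace_fin]
    omega⟩
  have h2 : finrank ℝ (VV j) = 2 * j + 1 := by
    rw [finrank_prod, finrank_self, finrank_pi_fintype]
    simp only [Complex.finrank_real_complex, Finset.sum_const, Finset.card_univ,
      Fintype.card_fin, smul_eq_mul]
    omega
  have hV : finrank ℝ (VV j) = finrank ℝ (ℝ ∙ (e₀ j).1)ᗮ := by
    rw [h2, Submodule.finrank_orthogonal_span_singleton (n := 2 * j + 1) hv0]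
  let e : VV j ≃ₜ (ℝ ∙ (e₀ j).1)ᗮ :=
    (FiniteDimensional.nonempty_continuousLinearEquiv_of_finrank_eq hV).some.toHomeomorph
  exact ⟨e.onePointCongr.trans (onePointHyperplaneHomeoUnitSphere hv)⟩

/-- **C6**: the map `β`. -/
theorem exists_beta (dim : DimStatement) {x : H (2 * j + 1) G ℤ}
    (prim : ∀ (Y : Type) [TopologicalSpace Y] (u v : C(Y, G)),
      H.pb (u * v) x = H.pb u x + H.pb v x) (f : C(ZZ j, G)) (hf1 : ∀ p, p.1 = 1 → f p = 1)
    (hf : H.pb f x ≠ 0) : ∃ β : C(Sph (j + 1), G), H.pb β x ≠ 0 := by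
  obtain ⟨F, h1, h2, h3⟩ := exists_diff dim prim f hf1 Finset.univ
  have hF : ∀ p ∈ (chartZZ j).A, F p = 1 := by
    rintro p (hp | ⟨k, hk⟩)
    · exact h1 p hp
    · exact h2 k (Finset.mem_univ k) p hk
  obtain ⟨β, hβ⟩ := (chartZZ j).exists_factor ⟨(1, fun _ => CP1.pt), Or.inl rfl⟩ F 1 hF
  obtain ⟨e⟩ := nonempty_sphere_homeo j
  refine ⟨β.comp (e.symm : C(Sph (j + 1), OnePoint (VV j))), fun h => hf ?_⟩
  rw [← h3, ← hβ, ← H.pb_comp]
  have h4 : H.pb β x = H.pb (e : C(OnePoint (VV j), Sph (j + 1)))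
      (H.pb (β.comp (e.symm : C(Sph (j + 1), OnePoint (VV j)))) x) := by
    rw [H.pb_comp]
    congr 1
    ext1 v
    simp
  rw [h4, h, map_zero, map_zero]

end

end Pool.Agent.Lib.MP_904b2a_gt
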