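import Pool.Agent.Lib.MP_904b2a_gt.H78.Equator
import Pool.Agent.Lib.MP_904b2a_gt.H83.CupAlg

/-!
# MP_904b2a_gt, module CHE (helper78), part 5: the top primitive class on `U(j+1)` comes from the
sphere `S^{2j+1}`
-/

open scoped BigOperators Matrix
open Metric Set Module

namespace Pool.Agent.Lib.MP_904b2a_gt

noncomputable section

/-- Classes of degree zero of path connected spaces. -/
theorem H.exists_eq_zsmul_one {X : Type} [TopologicalSpace X] [PathConnectedSpace X]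
    (b : H 0 X ℤ) : ∃ n : ℤ, b = n • H.one := by
  obtain ⟨φ, rfl⟩ := H.mk_surjective 0 b
  have x₀ : X := Classical.arbitrary X
  have key : ∀ x : X, φ.1 (cs 0 x) = φ.1 (cs 0 x₀) := by
    intro x
    have h : (ContinuousMap.const Unit x).Homotopic (ContinuousMap.const Unit x₀) :=
      ContinuousMap.homotopic_const_iff.mpr (PathConnectedSpace.joined x x₀)
    have h2 := H.pb_eq_of_homotopic h (H.mk 0 φ)
    rw [H.pb_mk, H.pb_mk, H.mk_eq_mk] at h2
    have h3 : pbC 0 (ContinuousMap.const Unit x) φ.1 - pbC 0 (ContinuousMap.const Unit x₀) φ.1 =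
        0 := h2
    have h4 := congrFun (sub_eq_zero.1 h3) (cs 0 ())
    exact h4
  refine ⟨φ.1 (cs 0 x₀), ?_⟩
  rw [H.one, ← map_zsmul]
  congr 1
  apply Subtype.ext
  funext σ
  rw [zero_simplex_eq σ, key]
  change φ.1 (cs 0 x₀) = φ.1 (cs 0 x₀) • (1 : ℤ)
  simp

/-- The Künneth formula for spaces of the homotopy type of `S^{2j}`. -/
theorem kunneth_W (hK : KunnethStatement) {j : ℕ} (hj : 1 ≤ j) {W : Type} [TopologicalSpace W]
    (θ : C(ES (2 * j), W)) (ρ : C(W, ES (2 * j))) (h : (θ.comp ρ).Homotopic (ContinuousMap.id W)) :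
    ∃ ι' : H (2 * j) W ℤ, ∀ (Y : Type) [TopologicalSpace Y] [PathConnectedSpace Y]
      (c : H (2 * j) (Y × W) ℤ), ∃ (a : H (2 * j) Y ℤ) (m : ℤ),
        c = H.pb (⟨Prod.fst, continuous_fst⟩ : C(Y × W, Y)) a +
          m • H.pb (⟨Prod.snd, continuous_snd⟩ : C(Y × W, W)) ι' := by
  obtain ⟨ι, -, hι⟩ := hK (2 * j) (by omega)
  refine ⟨H.pb ρ ι, fun Y _ _ c => ?_⟩
  obtain ⟨⟨a, b⟩, hab⟩ := ((hι Y).2 0).2 (H.pb ((ContinuousMap.id Y).prodMap θ) c)
  obtain ⟨m, rfl⟩ := H.exists_eq_zsmul_one b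
  refine ⟨a, m, ?_⟩
  have h1 : c = H.pb ((ContinuousMap.id Y).prodMap ρ)
      (H.pb ((ContinuousMap.id Y).prodMap θ) c) := by
    rw [H.pb_comp]
    have h2 : ((ContinuousMap.id Y).prodMap θ).comp ((ContinuousMap.id Y).prodMap ρ) =
        ((ContinuousMap.id Y).prodMap (θ.comp ρ)) := rfl
    rw [h2, H.pb_eq_of_homotopic ((ContinuousMap.Homotopic.refl _).prodMap h)]
    have h3 : (ContinuousMap.id Y).prodMap (ContinuousMap.id W) = ContinuousMap.id (Y × W) := rfl
    rw [h3, H.pb_id]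
  rw [h1, ← hab]
  simp only
  rw [map_zsmul, map_zsmul, H.pb_one]
  have h4 : ∀ u : H (2 * j) (Y × ES (2 * j)) ℤ, H.cup (p := 2 * j) (q := 0) (n := 2 * j + 0) rfl u H.one = u :=
    fun u => H83.H.cup_one rfl u
  rw [h4, map_add, map_zsmul, H.pb_comp, H.pb_comp, H.pb_comp]
  rfl

/-! ### The two open sets -/

/-- The complement of `-e₀`. -/
def SphP (j : ℕ) : Set (Sph (j + 1)) := {-e₀ j}ᶜ

/-- The part of the unitary group over the complement of `-e₀`. -/
def UgP (j : ℕ) : Set (UG (j + 1)) := qU j ⁻¹' SphP j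

theorem isOpen_SphM (j : ℕ) : IsOpen (SphM j) := isOpen_compl_singleton

theorem isOpen_SphP (j : ℕ) : IsOpen (SphP j) := isOpen_compl_singleton

theorem e₀_ne_neg (j : ℕ) : e₀ j ≠ -e₀ j := by
  intro h
  have h1 : (e₀ j).1 0 = (-e₀ j).1 0 := by rw [← h]
  have h2 : (-e₀ j).1 0 = -((e₀ j).1 0) := rfl
  rw [h2, e₀_apply, if_pos rfl] at h1
  norm_num at h1

theorem SphM_union_SphP (j : ℕ) : SphM j ∪ SphP j = univ := by
  ext v
  simp only [SphM, SphP, mem_union, mem_compl_iff, mem_singleton_iff, mem_univ, iff_true]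
  by_cases h : v = e₀ j
  · right
    rw [h]
    exact e₀_ne_neg j
  · exact Or.inl h

theorem isOpen_UgM (j : ℕ) : IsOpen (UgM j) := (isOpen_SphM j).preimage (qU j).continuous

theorem isOpen_UgP (j : ℕ) : IsOpen (UgP j) := (isOpen_SphP j).preimage (qU j).continuous

theorem UgM_union_UgP (j : ℕ) : UgM j ∪ UgP j = univ := by
  rw [UgM, UgP, ← preimage_union, SphM_union_SphP, preimage_univ]

theorem mapsTo_UgM (j : ℕ) : MapsTo (qU j) (UgM j) (SphM j) := mapsTo_preimage _ _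

theorem mapsTo_UgP (j : ℕ) : MapsTo (qU j) (UgP j) (SphP j) := mapsTo_preimage _ _

/-- The restriction of `q` to the intersection. -/
def qmp (j : ℕ) : C(↥(UgM j ∩ UgP j), ↥(SphM j ∩ SphP j)) :=
  resMap (qU j) ((mapsTo_UgM j).inter_inter (mapsTo_UgP j))

instance (j : ℕ) : ContractibleSpace (SphM j) :=
  Equator.contractible_compl (F := EuclideanSpace ℂ (Fin (j + 1))) (e₀ j)

/-- Constant maps induce zero. -/
theorem H.pb_const_map {X Y : Type} [TopologicalSpace X] [TopologicalSpace Y] {n : ℕ} (y : Y)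
    (u : H (n + 1) Y ℤ) : H.pb (ContinuousMap.const X y) u = 0 := by
  have h : ContinuousMap.const X y = (ContinuousMap.const Unit y).comp (ContinuousMap.const X ()) :=
    rfl
  rw [h, ← H.pb_comp, H.eq_zero_of_subsingleton n (H.pb (ContinuousMap.const Unit y) u), map_zero]

section

variable {j : ℕ} {x : H (2 * j + 1) (UG (j + 1)) ℤ}

theorem res_UgM
    (prim : ∀ (Y : Type) [TopologicalSpace Y] (u v : C(Y, UG (j + 1))),
      H.pb (u * v) x = H.pb u x + H.pb v x)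
    (h0 : H.pb (blkC (succE j)) x = 0) : H.pb (incl (UgM j)) x = 0 := by
  have h1 : incl (UgM j) = ((secU j).comp (qm j)) * ((blkC (succE j)).comp (tauU j)) := by
    ext1 u
    exact (sec_mul_blk u).symm
  rw [h1, prim, ← H.pb_comp, ← H.pb_comp, h0, map_zero, add_zero,
    H.eq_zero_of_contractible (2 * j) (H.pb (secU j) x), map_zero]

/-- Multiplication by `-1`. -/
def negU (j : ℕ) : C(UgP j, UgM j) where
  toFun u := ⟨-u.1, by
    have h : u.1 ∈ UgP j := u.2
    change qU j (-u.1) ∈ SphM j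
    intro h2
    apply h
    rw [mem_singleton_iff] at h2 ⊢
    rw [← h2]
    apply Subtype.ext
    ext a
    change (qU j u.1).1 a = -((qU j (-u.1)).1 a)
    rw [qU_apply, qU_apply]
    change _ = -(-((u.1 : Matrix (Fin (j + 1)) (Fin (j + 1)) ℂ) a 0))
    rw [neg_neg]⟩
  continuous_toFun := by
    refine Continuous.subtype_mk ?_ _
    refine Continuous.subtype_mk ?_ _
    exact (continuous_subtype_val.comp continuous_subtype_val).neg

theorem res_UgP
    (prim : ∀ (Y : Type) [TopologicalSpace Y] (u v : C(Y, UG (j + 1))),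
      H.pb (u * v) x = H.pb u x + H.pb v x)
    (h0 : H.pb (blkC (succE j)) x = 0) : H.pb (incl (UgP j)) x = 0 := by
  have h1 : incl (UgP j) = (ContinuousMap.const _ (-1 : UG (j + 1))) *
      ((incl (UgM j)).comp (negU j)) := by
    ext1 u
    change u.1 = (-1 : UG (j + 1)) * (-u.1)
    rw [neg_mul_neg, one_mul]
  rw [h1, prim, ← H.pb_comp, res_UgM prim h0, map_zero, add_zero, H.pb_const_map]

/-! ### The intersection -/

/-- `u ↦ (τ(u), q(u))`. -/
def trivU (j : ℕ) : C(↥(UgM j ∩ UgP j), UG j × ↥(SphM j ∩ SphP j)) :=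
  ((tauU j).comp (iL (UgM j) (UgP j))).prodMk (qmp j)

/-- `(B, v) ↦ σ(v) (1 ⊕ B)`. -/
def trivU' (j : ℕ) : C(UG j × ↥(SphM j ∩ SphP j), ↥(UgM j ∩ UgP j)) where
  toFun p := ⟨secU j ⟨p.2.1, p.2.2.1⟩ * blk (succE j) p.1, by
    have h := qU_sec_mul_blk ⟨p.2.1, p.2.2.1⟩ p.1
    constructor
    · change qU j _ ∈ SphM j
      rw [h]
      exact p.2.2.1
    · change qU j _ ∈ SphP j
      rw [h]
      exact p.2.2.2⟩
  continuous_toFun := by
    refine Continuous.subtype_mk ?_ _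
    refine Continuous.mul ?_ ((continuous_blk _).comp continuous_fst)
    exact (secU j).continuous.comp
      ((continuous_subtype_val.comp continuous_snd).subtype_mk _)

theorem trivU'_comp (j : ℕ) : (trivU' j).comp (trivU j) = ContinuousMap.id _ := by
  ext1 u
  apply Subtype.ext
  exact sec_mul_blk (⟨u.1, u.2.1⟩ : UgM j)

theorem exists_equator_Sph (j : ℕ) : ∃ (θ : C(ES (2 * j), ↥(SphM j ∩ SphP j)))
    (ρ : C(↥(SphM j ∩ SphP j), ES (2 * j))), (θ.comp ρ).Homotopic (ContinuousMap.id _) := by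
  have : Fact (finrank ℝ (EuclideanSpace ℂ (Fin (j + 1))) = (2 * j + 1) + 1) := ⟨by
    rw [finrank_real_of_complex, finrank_euclideanSpace_fin]
    omega⟩
  refine Equator.exists_equator (F := EuclideanSpace ℂ (Fin (j + 1))) (n := 2 * j + 1)
    (e := (e₀ j).1) (mem_sphere_zero_iff_norm.mp (e₀ j).2) (fun v => ?_)
  constructor
  · rintro ⟨h1, h2⟩
    exact ⟨fun h => h1 (Subtype.ext h), fun h => h2 (Subtype.ext h)⟩
  · rintro ⟨h1, h2⟩
    exact ⟨fun h => h1 (congrArg Subtype.val h), fun h => h2 (congrArg Subtype.val h)⟩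

/-- **C5**: primitive classes of degree `2j+1` on `U(j+1)` which vanish on `U(j)` come from the
sphere. -/
theorem exists_sphere_class (hK : KunnethStatement) (hj : 1 ≤ j) [PathConnectedSpace (UG j)]
    (prim : ∀ (Y : Type) [TopologicalSpace Y] (u v : C(Y, UG (j + 1))),
      H.pb (u * v) x = H.pb u x + H.pb v x)
    (h0 : H.pb (blkC (succE j)) x = 0) :
    ∃ (ι₀ : H (2 * j + 1) (Sph (j + 1)) ℤ) (m : ℤ), x = m • H.pb (qU j) ι₀ := by
  obtain ⟨θ, ρ, hθρ⟩ := exists_equator_Sph j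
  obtain ⟨ι', hι'⟩ := kunneth_W hK hj θ ρ hθρ
  obtain ⟨a, ha⟩ := MV.exists_of_res (res_UgM prim h0) (res_UgP prim h0)
  obtain ⟨a₀, m, hc⟩ := hι' (UG j) (H.pb (trivU' j) a)
  obtain ⟨ι₀, hι₀⟩ := MV.exists_of_inter
    (smallC (A := ℤ) (isOpen_SphM j) (isOpen_SphP j) (SphM_union_SphP j)) ι'
  refine ⟨ι₀, m, ?_⟩
  have h1 : MV (UgM j) (UgP j) (2 * j) (H.pb (qU j) ι₀) (H.pb (qmp j) ι') :=
    MV.pb (qU j) (mapsTo_UgM j) (mapsTo_UgP j) hι₀
  have h2 := ha.sub (h1.zsmul m)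
  have h3 : a = H.pb (iL (UgM j) (UgP j)) (H.pb (tauU j) a₀) +
      m • H.pb (qmp j) ι' := by
    have h4 : a = H.pb (trivU j) (H.pb (trivU' j) a) := by
      rw [H.pb_comp, trivU'_comp, H.pb_id]
    rw [h4, hc, map_add, map_zsmul, H.pb_comp, H.pb_comp, H.pb_comp]
    rfl
  have h5 := MV.eq_zero_of_sub
    (smallC (A := ℤ) (isOpen_UgM j) (isOpen_UgP j) (UgM_union_UgP j)) h2
    (H.pb (tauU j) a₀) 0 (by
      rw [map_zero, sub_zero, sub_eq_iff_eq_add]
      exact h3)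
  exact sub_eq_zero.mp h5

end

end

end Pool.Agent.Lib.MP_904b2a_gt
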