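import Pool.Agent.Lib.MP_904b2a_gt.H78.Collapse

/-!
# MP_904b2a_gt, module CHE (helper78), part 7: the chart of the projective line
-/

open scoped BigOperators Matrix ComplexConjugate
open Metric Set Module Topology

namespace Pool.Agent.Lib.MP_904b2a_gt

noncomputable section

namespace CP1

theorem h01 (P : CP1) : P.1 0 1 = conj (P.1 1 0) := (P.2.1.apply 0 1).symm

theorem h00 (P : CP1) : conj (P.1 0 0) = P.1 0 0 := P.2.1.apply 0 0

theorem h11 (P : CP1) : P.1 1 1 = 1 - P.1 0 0 := by
  have h := P.2.2.2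
  rw [Matrix.trace_fin_two] at h
  linear_combination h

theorem hsq (P : CP1) : conj (P.1 1 0) * P.1 1 0 = P.1 0 0 - P.1 0 0 * P.1 0 0 := by
  have h := congrFun (congrFun P.2.2.1 0) 0
  rw [Matrix.mul_apply, Fin.sum_univ_two, h01] at h
  linear_combination h

/-- The coordinate `P 0 0` is real. -/
theorem re00 (P : CP1) : (((P.1 0 0).re : ℝ) : ℂ) = P.1 0 0 := Complex.conj_eq_iff_re.mp (h00 P)

theorem normSq10 (P : CP1) : Complex.normSq (P.1 1 0) = (P.1 0 0).re - (P.1 0 0).re ^ 2 := by
  have h := hsq P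
  rw [← Complex.normSq_eq_conj_mul_self, ← re00 P] at h
  have h2 : ((Complex.normSq (P.1 1 0) : ℝ) : ℂ) = (((P.1 0 0).re - (P.1 0 0).re ^ 2 : ℝ) : ℂ) := by
    rw [h]
    push_cast
    rw [re00 P]
    ring
  exact_mod_cast h2

theorem re00_mem (P : CP1) : 0 ≤ (P.1 0 0).re ∧ (P.1 0 0).re ≤ 1 := by
  have h := normSq10 P
  have h2 := Complex.normSq_nonneg (P.1 1 0)
  constructor <;> nlinarith

theorem norm_le (P : CP1) (i k : Fin 2) : ‖P.1 i k‖ ≤ 1 := by
  have h := re00_mem P
  have h0 : ‖P.1 0 0‖ ≤ 1 := by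
    rw [← re00 P, Complex.norm_real, Real.norm_eq_abs, abs_le]
    constructor <;> linarith [h.1, h.2]
  have h1 : ‖P.1 1 1‖ ≤ 1 := by
    have e : P.1 1 1 = ((1 - (P.1 0 0).re : ℝ) : ℂ) := by
      rw [h11, Complex.ofReal_sub, re00, Complex.ofReal_one]
    rw [e, Complex.norm_real, Real.norm_eq_abs, abs_le]
    constructor <;> linarith [h.1, h.2]
  have h2 : ‖P.1 1 0‖ ≤ 1 := by
    have h3 : ‖P.1 1 0‖ ^ 2 ≤ 1 := by
      rw [← Complex.normSq_eq_norm_sq, normSq10]
      nlinarith [h.1, h.2]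
    nlinarith [norm_nonneg (P.1 1 0)]
  have h4 : ‖P.1 0 1‖ ≤ 1 := by rw [h01, Complex.norm_conj]; exact h2
  fin_cases i <;> fin_cases k
  · exact h0
  · exact h4
  · exact h2
  · exact h1

instance : T2Space CP1 := inferInstanceAs (T2Space {P : Matrix (Fin 2) (Fin 2) ℂ //
  P.IsHermitian ∧ P * P = P ∧ P.trace = 1})

instance : CompactSpace CP1 := by
  have hcl : IsClosed {P : Matrix (Fin 2) (Fin 2) ℂ | P.IsHermitian ∧ P * P = P ∧ P.trace = 1} := by
    refine IsClosed.inter ?_ (IsClosed.inter ?_ ?_)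
    · exact isClosed_eq (continuous_id.matrix_conjTranspose) continuous_id
    · exact isClosed_eq (continuous_id.matrix_mul continuous_id) continuous_id
    · exact isClosed_eq continuous_id.matrix_trace continuous_const
  have hK : IsCompact (Set.pi univ (fun _ : Fin 2 => Set.pi univ (fun _ : Fin 2 =>
      closedBall (0 : ℂ) 1))) :=
    isCompact_univ_pi (fun _ => isCompact_univ_pi (fun _ => isCompact_closedBall 0 1))
  have hc : IsCompact {P : Matrix (Fin 2) (Fin 2) ℂ |
      P.IsHermitian ∧ P * P = P ∧ P.trace = 1} := by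
    refine hK.of_isClosed_subset hcl (fun P hP i _ k _ => ?_)
    rw [mem_closedBall_zero_iff]
    exact norm_le ⟨P, hP⟩ i k
  exact isCompact_iff_compactSpace.mp hc

/-- The base point. -/
def pt : CP1 := ⟨!![0, 0; 0, 1], by
  refine ⟨?_, ?_, ?_⟩
  · ext i k
    fin_cases i <;> fin_cases k <;> simp
  · ext i k
    fin_cases i <;> fin_cases k <;> simp [Matrix.mul_apply]
  · simp [Matrix.trace_fin_two]⟩

theorem ext {P Q : CP1} (h0 : P.1 0 0 = Q.1 0 0) (h1 : P.1 1 0 = Q.1 1 0) : P = Q := by
  apply Subtype.ext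
  ext i k
  fin_cases i <;> fin_cases k
  · exact h0
  · change P.1 0 1 = Q.1 0 1
    rw [h01, h01, h1]
  · exact h1
  · change P.1 1 1 = Q.1 1 1
    rw [h11, h11, h0]

theorem eq_pt_iff {P : CP1} : P = pt ↔ P.1 0 0 = 0 := by
  constructor
  · rintro rfl
    simp [pt]
  · intro h
    refine ext ?_ ?_
    · rw [h]
      simp [pt]
    · have h2 := normSq10 P
      rw [h, Complex.zero_re] at h2
      have h3 : P.1 1 0 = 0 := by
        apply Complex.normSq_eq_zero.mp
        rw [h2]
        ring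
      rw [h3]
      simp [pt]

theorem one_add_pos (w : ℂ) : 0 < 1 + Complex.normSq w := by
  have := Complex.normSq_nonneg w
  linarith

theorem one_add_ne (w : ℂ) : (1 + (Complex.normSq w : ℂ)) ≠ 0 := by
  have := one_add_pos w
  have h2 : ((1 + Complex.normSq w : ℝ) : ℂ) ≠ 0 := by
    exact_mod_cast this.ne'
  rwa [Complex.ofReal_add, Complex.ofReal_one] at h2

/-- The projection onto the line of `(1, w)`. -/
def ofC (w : ℂ) : CP1 := ⟨(1 + (Complex.normSq w : ℂ))⁻¹ •
    !![1, conj w; w, (Complex.normSq w : ℂ)], by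
  have h0 := one_add_ne w
  have hw : w * conj w = (Complex.normSq w : ℂ) := by
    rw [mul_comm, Complex.normSq_eq_conj_mul_self]
  have hw' : conj w * w = (Complex.normSq w : ℂ) := Complex.normSq_eq_conj_mul_self.symm
  have hc : conj ((1 + (Complex.normSq w : ℂ))⁻¹) = (1 + (Complex.normSq w : ℂ))⁻¹ := by
    rw [map_inv₀, map_add, map_one, Complex.conj_ofReal]
  refine ⟨?_, ?_, ?_⟩
  · ext i k
    fin_cases i <;> fin_cases k <;>
      simp only [Fin.zero_eta, Fin.mk_one, Fin.isValue, Matrix.conjTranspose_apply,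
        Matrix.smul_apply, Matrix.of_apply, Matrix.cons_val', Matrix.cons_val_zero,
        Matrix.cons_val_one, Matrix.cons_val_fin_one, smul_eq_mul, star_mul', Complex.star_def,
        hc, map_one, Complex.conj_conj, Complex.conj_ofReal]
  · rw [Matrix.smul_mul, Matrix.mul_smul, Matrix.mul_fin_two, hw', hw]
    ext i k
    fin_cases i <;> fin_cases k <;>
      simp only [Fin.zero_eta, Fin.mk_one, Fin.isValue, Matrix.smul_apply, Matrix.of_apply,
        Matrix.cons_val', Matrix.cons_val_zero, Matrix.cons_val_one, Matrix.cons_val_fin_one,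
        smul_eq_mul] <;> field_simp
  · rw [Matrix.trace_smul, Matrix.trace_fin_two_of, smul_eq_mul, inv_mul_cancel₀ h0]⟩

theorem ofC_00 (w : ℂ) : (ofC w).1 0 0 = (1 + (Complex.normSq w : ℂ))⁻¹ := by
  simp [ofC]

theorem ofC_10 (w : ℂ) : (ofC w).1 1 0 = (1 + (Complex.normSq w : ℂ))⁻¹ * w := by
  simp [ofC]

theorem continuous_ofC : Continuous ofC := by
  refine Continuous.subtype_mk ?_ _
  have h1 : Continuous fun w : ℂ => (Complex.normSq w : ℂ) :=
    Complex.continuous_ofReal.comp Complex.continuous_normSq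
  refine ((continuous_const.add h1).inv₀ one_add_ne).smul ?_
  refine continuous_matrix (fun i k => ?_)
  fin_cases i <;> fin_cases k
  · exact continuous_const
  · exact Complex.continuous_conj
  · exact continuous_id
  · exact h1

/-- The chart of the projective line. -/
def chart : OChart ℂ CP1 where
  A := {pt}
  φ := ⟨ofC, continuous_ofC⟩
  ψ P := P.1 1 0 / P.1 0 0
  closed := isClosed_singleton
  left w := by
    change (ofC w).1 1 0 / (ofC w).1 0 0 = w
    rw [ofC_00, ofC_10, mul_div_assoc]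
    have := one_add_ne w
    field_simp
  right P hP := by
    have hP0 : P.1 0 0 ≠ 0 := fun h => hP (eq_pt_iff.mpr h)
    have h1 : (1 + (Complex.normSq (P.1 1 0 / P.1 0 0) : ℂ))⁻¹ = P.1 0 0 := by
      rw [Complex.normSq_eq_conj_mul_self, map_div₀, h00]
      have h := hsq P
      rw [inv_eq_iff_eq_inv]
      field_simp
      linear_combination h
    change ofC (P.1 1 0 / P.1 0 0) = P
    refine ext ?_ ?_
    · rw [ofC_00, h1]
    · rw [ofC_10, h1]
      field_simp
  nmem w h := by
    have h2 : (ofC w).1 0 0 = 0 := eq_pt_iff.mp h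
    rw [ofC_00] at h2
    exact inv_ne_zero (one_add_ne w) h2
  cont := by
    have h : ∀ i k, Continuous fun P : CP1 => P.1 i k := fun i k =>
      continuous_subtype_val.matrix_elem i k
    exact (h 1 0).continuousOn.div (h 0 0).continuousOn
      (fun P hP h => hP (eq_pt_iff.mpr h))

end CP1

end

end Pool.Agent.Lib.MP_904b2a_gt
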