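import Pool.Agent.Lib.MP_904b2a_gt.H78.CFive

/-!
# MP_904b2a_gt, module CHE (helper78), part 6: collapsing the complement of a cell
-/

open scoped BigOperators Matrix
open Metric Set Module OnePoint Topology

namespace Pool.Agent.Lib.MP_904b2a_gt

noncomputable section

/-- An open subset `Aᶜ` of `X` with a homeomorphism to `V`. -/
structure OChart (V X : Type) [TopologicalSpace V] [TopologicalSpace X] where
  A : Set X
  φ : C(V, X)
  ψ : X → V
  closed : IsClosed A
  left : ∀ v, ψ (φ v) = v
  right : ∀ x, x ∉ A → φ (ψ x) = x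
  nmem : ∀ v, φ v ∉ A
  cont : ContinuousOn ψ Aᶜ

namespace OChart

variable {V X : Type} [TopologicalSpace V] [TopologicalSpace X] (c : OChart V X)

theorem image_eq (s : Set V) : c.φ '' s = c.Aᶜ ∩ c.ψ ⁻¹' s := by
  ext x
  constructor
  · rintro ⟨v, hv, rfl⟩
    exact ⟨c.nmem v, by rw [mem_preimage, c.left]; exact hv⟩
  · rintro ⟨h1, h2⟩
    exact ⟨c.ψ x, h2, c.right x h1⟩

theorem isOpen_image {s : Set V} (hs : IsOpen s) : IsOpen (c.φ '' s) := by
  rw [c.image_eq]
  exact c.cont.isOpen_inter_preimage c.closed.isOpen_compl hs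

open Classical in
/-- The collapse. -/
def col (x : X) : OnePoint V := if x ∈ c.A then ∞ else (c.ψ x : OnePoint V)

theorem col_of_mem {x : X} (h : x ∈ c.A) : c.col x = ∞ := by
  rw [col, if_pos h]

theorem col_of_notMem {x : X} (h : x ∉ c.A) : c.col x = (c.ψ x : OnePoint V) := by
  rw [col, if_neg h]

theorem preimage_col_of_notMem {s : Set (OnePoint V)} (h : ∞ ∉ s) :
    c.col ⁻¹' s = c.φ '' ((↑) ⁻¹' s : Set V) := by
  rw [c.image_eq]
  ext x
  by_cases hx : x ∈ c.A
  · simp [c.col_of_mem hx, h, hx]
  · simp [c.col_of_notMem hx, hx]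

theorem preimage_col_of_mem {s : Set (OnePoint V)} (h : ∞ ∈ s) :
    c.col ⁻¹' s = (c.φ '' ((↑) ⁻¹' s : Set V)ᶜ)ᶜ := by
  rw [c.image_eq]
  ext x
  by_cases hx : x ∈ c.A
  · simp [c.col_of_mem hx, h, hx]
  · simp [c.col_of_notMem hx, hx]

theorem continuous_col [T2Space X] : Continuous c.col := by
  rw [continuous_def]
  intro s hs
  by_cases h : ∞ ∈ s
  · rw [c.preimage_col_of_mem h, isOpen_compl_iff]
    exact (((isOpen_iff_of_mem h).mp hs).2.image c.φ.continuous).isClosed
  · rw [c.preimage_col_of_notMem h]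
    exact c.isOpen_image ((isOpen_iff_of_notMem h).mp hs)

theorem surjective_col (hA : c.A.Nonempty) : Function.Surjective c.col := by
  intro y
  induction y using OnePoint.rec with
  | infty =>
    obtain ⟨a, ha⟩ := hA
    exact ⟨a, c.col_of_mem ha⟩
  | coe v => exact ⟨c.φ v, by rw [c.col_of_notMem (c.nmem v), c.left]⟩

/-- The collapse as a continuous map. -/
def colC [T2Space X] : C(X, OnePoint V) := ⟨c.col, c.continuous_col⟩

/-- Maps which are constant on `A` factor through the collapse. -/
theorem exists_factor [CompactSpace X] [T2Space X] [T2Space V] [LocallyCompactSpace V]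
    (hA : c.A.Nonempty) {G : Type} [TopologicalSpace G] (F : C(X, G)) (g : G)
    (hF : ∀ x ∈ c.A, F x = g) : ∃ β : C(OnePoint V, G), β.comp c.colC = F := by
  have hq : IsQuotientMap c.colC :=
    c.colC.continuous.isClosedMap.isQuotientMap c.colC.continuous (c.surjective_col hA)
  refine ⟨hq.lift F ?_, hq.lift_comp F _⟩
  intro x y hxy
  change c.col x = c.col y at hxy
  by_cases hx : x ∈ c.A
  · by_cases hy : y ∈ c.A
    · rw [hF x hx, hF y hy]
    · rw [c.col_of_mem hx, c.col_of_notMem hy] at hxy
      exact (OnePoint.infty_ne_coe _ hxy).elim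
  · by_cases hy : y ∈ c.A
    · rw [c.col_of_notMem hx, c.col_of_mem hy] at hxy
      exact (OnePoint.coe_ne_infty _ hxy).elim
    · rw [c.col_of_notMem hx, c.col_of_notMem hy, OnePoint.coe_eq_coe] at hxy
      rw [← c.right x hx, hxy, c.right y hy]

/-- Products. -/
def prod {V' X' : Type} [TopologicalSpace V'] [TopologicalSpace X'] (c' : OChart V' X') :
    OChart (V × V') (X × X') where
  A := {p | p.1 ∈ c.A ∨ p.2 ∈ c'.A}
  φ := c.φ.prodMap c'.φ
  ψ p := (c.ψ p.1, c'.ψ p.2)
  closed := (c.closed.preimage continuous_fst).union (c'.closed.preimage continuous_snd)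
  left v := by
    change (c.ψ (c.φ v.1), c'.ψ (c'.φ v.2)) = v
    rw [c.left, c'.left]
  right x hx := by
    have h : x.1 ∉ c.A ∧ x.2 ∉ c'.A := not_or.mp hx
    change (c.φ (c.ψ x.1), c'.φ (c'.ψ x.2)) = x
    rw [c.right _ h.1, c'.right _ h.2]
  nmem v := by
    intro h
    rcases h with h | h
    · exact c.nmem _ h
    · exact c'.nmem _ h
  cont := by
    refine ContinuousOn.prodMk ?_ ?_
    · exact c.cont.comp continuous_fst.continuousOn (fun x hx => (not_or.mp hx).1)
    · exact c'.cont.comp continuous_snd.continuousOn (fun x hx => (not_or.mp hx).2)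

/-- Powers. -/
def pow (ι : Type) [Finite ι] : OChart (ι → V) (ι → X) where
  A := {p | ∃ k, p k ∈ c.A}
  φ := ⟨fun v k => c.φ (v k), by fun_prop⟩
  ψ p k := c.ψ (p k)
  closed := by
    have : {p : ι → X | ∃ k, p k ∈ c.A} = ⋃ k, (fun p => p k) ⁻¹' c.A := by
      ext p
      simp
    rw [this]
    exact isClosed_iUnion_of_finite (fun k => c.closed.preimage (continuous_apply k))
  left v := by
    funext k
    exact c.left (v k)
  right x hx := by
    funext k
    exact c.right (x k) (fun h => hx ⟨k, h⟩)
  nmem v := by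
    rintro ⟨k, h⟩
    exact c.nmem _ h
  cont := by
    refine continuousOn_pi.mpr (fun k => ?_)
    exact c.cont.comp (continuous_apply k).continuousOn (fun x hx h => hx ⟨k, h⟩)

end OChart

/-! ### The circle -/

/-- The Cayley transform `t ↦ (t + i)/(t - i)`. -/
def cayley : C(ℝ, Circle) where
  toFun t := ⟨((t : ℂ) + Complex.I) / ((t : ℂ) - Complex.I), by
    have h : ‖(t : ℂ) + Complex.I‖ = ‖(t : ℂ) - Complex.I‖ := by
      rw [← Complex.norm_conj, map_add, Complex.conj_ofReal, Complex.conj_I, ← sub_eq_add_neg]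
    have h2 : (t : ℂ) - Complex.I ≠ 0 := by
      intro h
      have := congrArg Complex.im h
      simp at this
    refine mem_sphere_zero_iff_norm.mpr ?_
    rw [norm_div, h]
    exact div_self (norm_ne_zero_iff.mpr h2)⟩
  continuous_toFun := by
    refine Continuous.subtype_mk ?_ _
    refine (Complex.continuous_ofReal.add continuous_const).div
      (Complex.continuous_ofReal.sub continuous_const) (fun t h => ?_)
    have := congrArg Complex.im h
    simp at this

theorem cayley_coe (t : ℝ) : (cayley t : ℂ) = ((t : ℂ) + Complex.I) / ((t : ℂ) - Complex.I) := rfl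

/-- The chart of the circle. -/
def circleChart : OChart ℝ Circle where
  A := {1}
  φ := cayley
  ψ z := (Complex.I * ((z : ℂ) + 1) / ((z : ℂ) - 1)).re
  closed := isClosed_singleton
  left t := by
    have h2 : (t : ℂ) - Complex.I ≠ 0 := by
      intro h
      have := congrArg Complex.im h
      simp at this
    rw [cayley_coe]
    have h3 : Complex.I * (((t : ℂ) + Complex.I) / ((t : ℂ) - Complex.I) + 1) /
        (((t : ℂ) + Complex.I) / ((t : ℂ) - Complex.I) - 1) = (t : ℂ) := by
      have h4 : ((t : ℂ) + Complex.I) / ((t : ℂ) - Complex.I) - 1 =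
          2 * Complex.I / ((t : ℂ) - Complex.I) := by
        field_simp
        ring
      have h5 : ((t : ℂ) + Complex.I) / ((t : ℂ) - Complex.I) + 1 =
          2 * t / ((t : ℂ) - Complex.I) := by
        field_simp
        ring
      rw [h4, h5]
      have := Complex.I_ne_zero
      field_simp
    rw [h3, Complex.ofReal_re]
  right z hz := by
    have hz1 : (z : ℂ) - 1 ≠ 0 := by
      intro h
      apply hz
      rw [mem_singleton_iff]
      apply Circle.ext
      rw [Circle.coe_one]
      exact sub_eq_zero.mp h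
    have hz0 : (z : ℂ) ≠ 0 := Circle.coe_ne_zero z
    have hconj : (starRingEnd ℂ) (z : ℂ) = (z : ℂ)⁻¹ := by
      rw [← Circle.coe_inv_eq_conj, Circle.coe_inv]
    have hz2 : (z : ℂ)⁻¹ - 1 ≠ 0 := by
      intro h
      apply hz1
      have h3 : (z : ℂ)⁻¹ = 1 := sub_eq_zero.mp h
      rw [inv_eq_one.mp h3, sub_self]
    have hre : (((Complex.I * ((z : ℂ) + 1) / ((z : ℂ) - 1)).re : ℝ) : ℂ) =
        Complex.I * ((z : ℂ) + 1) / ((z : ℂ) - 1) := by
      apply Complex.conj_eq_iff_re.mp
      rw [map_div₀, map_mul, Complex.conj_I, map_add, map_sub, map_one, hconj,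
        div_eq_div_iff hz2 hz1]
      field_simp
      ring
    apply Circle.ext
    rw [cayley_coe, hre]
    have h4 : Complex.I * ((z : ℂ) + 1) / ((z : ℂ) - 1) + Complex.I =
        2 * Complex.I * z / ((z : ℂ) - 1) := by
      field_simp
      ring
    have h5 : Complex.I * ((z : ℂ) + 1) / ((z : ℂ) - 1) - Complex.I =
        2 * Complex.I / ((z : ℂ) - 1) := by
      field_simp
      ring
    rw [h4, h5]
    have := Complex.I_ne_zero
    field_simp
  nmem t h := by
    rw [mem_singleton_iff] at h
    have h1 := congrArg (fun z : Circle => (z : ℂ)) h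
    simp only [cayley_coe, Circle.coe_one] at h1
    have h2 : (t : ℂ) - Complex.I ≠ 0 := by
      intro h
      have := congrArg Complex.im h
      simp at this
    rw [div_eq_one_iff_eq h2] at h1
    have := congrArg Complex.im h1
    simp at this
    norm_num at this
  cont := by
    refine Complex.continuous_re.comp_continuousOn ?_
    refine ContinuousOn.div (by fun_prop) (by fun_prop) (fun z hz h => ?_)
    apply hz
    rw [mem_singleton_iff]
    apply Circle.ext
    rw [Circle.coe_one]
    exact sub_eq_zero.mp h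

end

end Pool.Agent.Lib.MP_904b2a_gt
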