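import Pool.Agent.Lib.MP_904b2a_gt.H78.Sections

/-!
# MP_904b2a_gt, module CHE-top (helper78), part 4: the complement of two antipodal points of a
sphere
-/

open scoped BigOperators RealInnerProductSpace
open Metric Set Module

namespace Pool.Agent.Lib.MP_904b2a_gt

noncomputable section

namespace Equator

variable {F : Type*} [NormedAddCommGroup F] [InnerProductSpace ℝ F] {e : F}

/-- The component orthogonal to `e`. -/
def PP (e x : F) : F := x - ⟪e, x⟫ • e

theorem inner_PP (he : ‖e‖ = 1) (x : F) : ⟪e, PP e x⟫ = 0 := by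
  rw [PP, inner_sub_right, inner_smul_right, real_inner_self_eq_norm_sq, he]
  ring

theorem PP_add (e x y : F) : PP e (x + y) = PP e x + PP e y := by
  rw [PP, PP, PP, inner_add_right, add_smul]
  abel

theorem PP_smul (e : F) (c : ℝ) (x : F) : PP e (c • x) = c • PP e x := by
  rw [PP, PP, inner_smul_right, smul_sub, smul_smul]

theorem PP_self (he : ‖e‖ = 1) : PP e e = 0 := by
  rw [PP, real_inner_self_eq_norm_sq, he]
  simp

theorem PP_PP (he : ‖e‖ = 1) (x : F) : PP e (PP e x) = PP e x := by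
  rw [PP, inner_PP he, zero_smul, sub_zero]

theorem continuous_PP (e : F) : Continuous (PP e) := by
  unfold PP
  fun_prop

theorem PP_ne_zero (he : ‖e‖ = 1) {x : F} (hx : ‖x‖ = 1) (h1 : x ≠ e) (h2 : x ≠ -e) :
    PP e x ≠ 0 := by
  intro h
  have h3 : x = ⟪e, x⟫ • e := sub_eq_zero.mp h
  have h4 : |⟪e, x⟫| = 1 := by
    have := congrArg norm h3
    rw [norm_smul, he, mul_one, hx] at this
    exact this.symm
  rcases (abs_eq zero_le_one).mp h4 with h5 | h5
  · rw [h5, one_smul] at h3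
    exact h1 h3
  · rw [h5, neg_one_smul] at h3
    exact h2 h3

theorem ne_of_PP_ne_zero (he : ‖e‖ = 1) {x : F} (h : PP e x ≠ 0) : x ≠ 0 ∧ x ≠ e ∧ x ≠ -e := by
  refine ⟨?_, ?_, ?_⟩
  · rintro rfl
    exact h (by simp [PP])
  · rintro rfl
    exact h (PP_self he)
  · rintro rfl
    apply h
    rw [← neg_one_smul ℝ, PP_smul, PP_self he, smul_zero]

variable {n : ℕ}

/-- Normalisation. -/
def nor (he : ‖e‖ = 1) {W : Set (sphere (0 : F) 1)} (hW : ∀ x, x ∈ W ↔ x.1 ≠ e ∧ x.1 ≠ -e)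
    {T : Type*} [TopologicalSpace T] (f : C(T, F)) (hf : ∀ t, PP e (f t) ≠ 0) : C(T, W) where
  toFun t := ⟨⟨‖f t‖⁻¹ • f t, by
      have h0 := (ne_of_PP_ne_zero he (hf t)).1
      rw [mem_sphere_zero_iff_norm, norm_smul, norm_inv, norm_norm,
        inv_mul_cancel₀ (norm_ne_zero_iff.mpr h0)]⟩, by
      rw [hW]
      have h0 := (ne_of_PP_ne_zero he (hf t)).1
      apply (ne_of_PP_ne_zero he _).2
      rw [PP_smul]
      exact smul_ne_zero (inv_ne_zero (norm_ne_zero_iff.mpr h0)) (hf t)⟩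
  continuous_toFun := by
    refine Continuous.subtype_mk (Continuous.subtype_mk ?_ _) _
    exact (f.continuous.norm.inv₀ (fun t =>
      norm_ne_zero_iff.mpr (ne_of_PP_ne_zero he (hf t)).1)).smul f.continuous

theorem nor_apply (he : ‖e‖ = 1) {W : Set (sphere (0 : F) 1)}
    (hW : ∀ x, x ∈ W ↔ x.1 ≠ e ∧ x.1 ≠ -e) {T : Type*} [TopologicalSpace T] (f : C(T, F))
    (hf : ∀ t, PP e (f t) ≠ 0) (t : T) : (nor he hW f hf t).1.1 = ‖f t‖⁻¹ • f t := rfl

/-- The complement of two antipodal points of a sphere is homotopy equivalent to the equator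
(the part which we need). -/
theorem exists_equator [Fact (finrank ℝ F = n + 1)] (he : ‖e‖ = 1) {W : Set (sphere (0 : F) 1)}
    (hW : ∀ x, x ∈ W ↔ x.1 ≠ e ∧ x.1 ≠ -e) :
    ∃ (θ : C(sphere (0 : EuclideanSpace ℝ (Fin n)) 1, W))
      (ρ : C(W, sphere (0 : EuclideanSpace ℝ (Fin n)) 1)),
      (θ.comp ρ).Homotopic (ContinuousMap.id W) := by
  have he0 : e ≠ 0 := by
    rintro rfl
    simp at he
  let b : OrthonormalBasis (Fin n) ℝ (ℝ ∙ e)ᗮ := OrthonormalBasis.fromOrthogonalSpanSingleton n he0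
  let L : (ℝ ∙ e)ᗮ ≃ₗᵢ[ℝ] EuclideanSpace ℝ (Fin n) := b.repr
  have hx1 : ∀ x : W, PP e x.1.1 ≠ 0 := fun x =>
    PP_ne_zero he (mem_sphere_zero_iff_norm.mp x.1.2) ((hW x.1).mp x.2).1 ((hW x.1).mp x.2).2
  have hmem : ∀ x : F, PP e x ∈ (ℝ ∙ e)ᗮ := fun x => by
    rw [Submodule.mem_orthogonal_singleton_iff_inner_right]
    exact inner_PP he x
  have hLsym : ∀ s : sphere (0 : EuclideanSpace ℝ (Fin n)) 1, ‖(L.symm s.1 : F)‖ = 1 := fun s => by
    have : ‖L.symm s.1‖ = 1 := by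
      rw [LinearIsometryEquiv.norm_map]
      exact mem_sphere_zero_iff_norm.mp s.2
    exact this
  have hPsym : ∀ s : EuclideanSpace ℝ (Fin n), PP e (L.symm s : F) = (L.symm s : F) := fun s => by
    have : ⟪e, (L.symm s : F)⟫ = 0 :=
      Submodule.mem_orthogonal_singleton_iff_inner_right.mp (L.symm s).2
    rw [PP, this, zero_smul, sub_zero]
  -- the maps
  let f₁ : C(sphere (0 : EuclideanSpace ℝ (Fin n)) 1, F) := ⟨fun s => (L.symm s.1 : F), by fun_prop⟩
  have hf₁ : ∀ s, PP e (f₁ s) ≠ 0 := fun s => by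
    change PP e (L.symm s.1 : F) ≠ 0
    rw [hPsym]
    intro h
    have := hLsym s
    rw [h, norm_zero] at this
    exact zero_ne_one this
  let θ := nor he hW f₁ hf₁
  let ρ : C(W, sphere (0 : EuclideanSpace ℝ (Fin n)) 1) :=
    ⟨fun x => ⟨‖PP e x.1.1‖⁻¹ • L ⟨PP e x.1.1, hmem _⟩, by
      rw [mem_sphere_zero_iff_norm, norm_smul, LinearIsometryEquiv.norm_map, norm_inv, norm_norm]
      exact inv_mul_cancel₀ (norm_ne_zero_iff.mpr (hx1 x))⟩, by
      refine Continuous.subtype_mk ?_ _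
      have h1 : Continuous fun x : W => PP e x.1.1 :=
        (continuous_PP e).comp (continuous_subtype_val.comp continuous_subtype_val)
      exact (h1.norm.inv₀ (fun x => norm_ne_zero_iff.mpr (hx1 x))).smul
        (L.continuous.comp (h1.subtype_mk _))⟩
  refine ⟨θ, ρ, ?_⟩
  -- the homotopy
  let g : C(unitInterval × W, F) :=
    ⟨fun p => PP e p.2.1.1 + (p.1 : ℝ) • (⟪e, p.2.1.1⟫ • e), by
      have h1 : Continuous fun p : unitInterval × W => p.2.1.1 := by fun_prop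
      exact ((continuous_PP e).comp h1).add ((continuous_subtype_val.comp continuous_fst).smul
        ((continuous_const.inner h1).smul continuous_const))⟩
  have hg : ∀ p, PP e (g p) ≠ 0 := fun p => by
    change PP e (PP e p.2.1.1 + (p.1 : ℝ) • (⟪e, p.2.1.1⟫ • e)) ≠ 0
    rw [PP_add, PP_PP he, PP_smul, PP_smul, PP_self he, smul_zero, smul_zero, add_zero]
    exact hx1 p.2
  refine ⟨⟨nor he hW g hg, fun x => ?_, fun x => ?_⟩⟩
  · apply Subtype.ext
    apply Subtype.ext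
    change ‖PP e x.1.1 + ((0 : unitInterval) : ℝ) • (⟪e, x.1.1⟫ • e)‖⁻¹ •
      (PP e x.1.1 + ((0 : unitInterval) : ℝ) • (⟪e, x.1.1⟫ • e)) =
      ‖(L.symm (‖PP e x.1.1‖⁻¹ • L ⟨PP e x.1.1, hmem _⟩) : F)‖⁻¹ •
        (L.symm (‖PP e x.1.1‖⁻¹ • L ⟨PP e x.1.1, hmem _⟩) : F)
    rw [map_smul, LinearIsometryEquiv.symm_apply_apply]
    have h0 : ‖PP e x.1.1‖ ≠ 0 := norm_ne_zero_iff.mpr (hx1 x)
    rw [Submodule.coe_smul, norm_smul, norm_inv, norm_norm, inv_mul_cancel₀ h0, inv_one, one_smul]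
    simp
  · apply Subtype.ext
    apply Subtype.ext
    change ‖PP e x.1.1 + ((1 : unitInterval) : ℝ) • (⟪e, x.1.1⟫ • e)‖⁻¹ •
      (PP e x.1.1 + ((1 : unitInterval) : ℝ) • (⟪e, x.1.1⟫ • e)) = x.1.1
    have h1 : PP e x.1.1 + ((1 : unitInterval) : ℝ) • (⟪e, x.1.1⟫ • e) = x.1.1 := by
      rw [PP, Set.Icc.coe_one, one_smul, sub_add_cancel]
    rw [h1, mem_sphere_zero_iff_norm.mp x.1.2, inv_one, one_smul]

/-- The complement of a point of a sphere is contractible. -/
theorem contractible_compl (v : sphere (0 : F) 1) :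
    ContractibleSpace ({v}ᶜ : Set (sphere (0 : F) 1)) := by
  have hv : ‖v.1‖ = 1 := mem_sphere_zero_iff_norm.mp v.2
  have h1 : (stereographic hv).source = {v}ᶜ := stereographic_source hv
  have h2 : (stereographic hv).target = univ := stereographic_target hv
  let e1 : ({v}ᶜ : Set (sphere (0 : F) 1)) ≃ₜ (stereographic hv).source :=
    Homeomorph.setCongr h1.symm
  let e2 : (stereographic hv).source ≃ₜ (stereographic hv).target :=
    (stereographic hv).toHomeomorphSourceTarget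
  let e3 : (stereographic hv).target ≃ₜ (univ : Set (ℝ ∙ v.1)ᗮ) := Homeomorph.setCongr h2
  let e4 : (univ : Set (ℝ ∙ v.1)ᗮ) ≃ₜ (ℝ ∙ v.1)ᗮ := Homeomorph.Set.univ _
  exact (((e1.trans e2).trans e3).trans e4).contractibleSpace

end Equator

end

end Pool.Agent.Lib.MP_904b2a_gt
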