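import Pool.Agent.Lib.MP_904b2a_gt.H78.Blk

/-!
# MP_904b2a_gt, module CHE-top (helper78), part 3: the fibration `U(j+1) → S^{2j+1}` and its
sections over the complement of a point
-/

open scoped BigOperators Matrix ComplexConjugate
open Metric Set

namespace Pool.Agent.Lib.MP_904b2a_gt

noncomputable section

variable {j : ℕ}

theorem Sph.sum_eq (v : Sph (j + 1)) : ∑ a, conj (v.1 a) * v.1 a = 1 := by
  have h : ‖v.1‖ = 1 := mem_sphere_zero_iff_norm.mp v.2
  have h2 : ‖v.1‖ ^ 2 = 1 := by rw [h, one_pow]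
  rw [EuclideanSpace.norm_sq_eq] at h2
  have h3 : ∀ a, conj (v.1 a) * v.1 a = ((‖v.1 a‖ ^ 2 : ℝ) : ℂ) := by
    intro a
    rw [← Complex.normSq_eq_conj_mul_self, Complex.normSq_eq_norm_sq]
  simp only [h3]
  rw [← Complex.ofReal_sum, h2, Complex.ofReal_one]

/-- The constructor of points of the sphere. -/
theorem mem_Sph_of_sum {w : Fin (j + 1) → ℂ} (h : ∑ a, conj (w a) * w a = 1) :
    WithLp.toLp 2 w ∈ sphere (0 : EuclideanSpace ℂ (Fin (j + 1))) 1 := by
  rw [mem_sphere_zero_iff_norm]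
  have h3 : ∀ a, conj (w a) * w a = ((‖w a‖ ^ 2 : ℝ) : ℂ) := by
    intro a
    rw [← Complex.normSq_eq_conj_mul_self, Complex.normSq_eq_norm_sq]
  simp only [h3] at h
  rw [← Complex.ofReal_sum] at h
  have h4 : ∑ a, ‖w a‖ ^ 2 = 1 := by exact_mod_cast h
  have h5 : ‖(WithLp.toLp 2 w : EuclideanSpace ℂ (Fin (j + 1)))‖ ^ 2 = 1 := by
    rw [EuclideanSpace.norm_sq_eq]
    exact h4
  have h6 := norm_nonneg (WithLp.toLp 2 w : EuclideanSpace ℂ (Fin (j + 1)))
  nlinarith

theorem UG.col_sum {n : Type} [Fintype n] [DecidableEq n] (u : Matrix.unitaryGroup n ℂ) (b c : n) :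
    ∑ a, conj ((u : Matrix n n ℂ) a b) * (u : Matrix n n ℂ) a c = if b = c then 1 else 0 := by
  have h : (u : Matrix n n ℂ)ᴴ * (u : Matrix n n ℂ) = 1 := Matrix.mem_unitaryGroup_iff'.mp u.2
  have h2 := congrFun (congrFun h b) c
  rw [Matrix.mul_apply, Matrix.one_apply] at h2
  exact h2

/-- The first column of a unitary matrix. -/
def qU (j : ℕ) : C(UG (j + 1), Sph (j + 1)) where
  toFun u := ⟨WithLp.toLp 2 (fun a => (u : Matrix (Fin (j + 1)) (Fin (j + 1)) ℂ) a 0),
    mem_Sph_of_sum (by rw [UG.col_sum, if_pos rfl])⟩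
  continuous_toFun := by
    refine Continuous.subtype_mk ?_ _
    refine (PiLp.continuous_toLp 2 _).comp ?_
    exact continuous_pi (fun a => continuous_subtype_val.matrix_elem a 0)

theorem qU_apply (u : UG (j + 1)) (a : Fin (j + 1)) :
    (qU j u).1 a = (u : Matrix (Fin (j + 1)) (Fin (j + 1)) ℂ) a 0 := rfl

/-- The base point `e₀` of the sphere. -/
def e₀ (j : ℕ) : Sph (j + 1) := ⟨EuclideanSpace.single 0 1, by simp⟩

theorem e₀_apply (a : Fin (j + 1)) : (e₀ j).1 a = if a = 0 then 1 else 0 := by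
  simp [e₀]

/-- The complement of `e₀`. -/
def SphM (j : ℕ) : Set (Sph (j + 1)) := {e₀ j}ᶜ

theorem apply_zero_ne_one {v : Sph (j + 1)} (hv : v ∈ SphM j) : v.1 0 ≠ 1 := by
  intro h
  apply hv
  rw [mem_singleton_iff]
  apply Subtype.ext
  have h1 := Sph.sum_eq v
  rw [Fin.sum_univ_succ, h, map_one, one_mul] at h1
  have h2 : ∑ a : Fin j, conj (v.1 a.succ) * v.1 a.succ = 0 := by
    linear_combination h1
  have h3 : ∀ a : Fin j, conj (v.1 a.succ) * v.1 a.succ = ((‖v.1 a.succ‖ ^ 2 : ℝ) : ℂ) := by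
    intro a
    rw [← Complex.normSq_eq_conj_mul_self, Complex.normSq_eq_norm_sq]
  simp only [h3] at h2
  rw [← Complex.ofReal_sum] at h2
  have h4 : ∑ a : Fin j, ‖v.1 a.succ‖ ^ 2 = 0 := by exact_mod_cast h2
  rw [Finset.sum_eq_zero_iff_of_nonneg (fun _ _ => by positivity)] at h4
  ext a
  rw [e₀_apply]
  induction a using Fin.cases with
  | zero => rw [if_pos rfl, h]
  | succ a =>
    rw [if_neg (Fin.succ_ne_zero a)]
    have := h4 a (Finset.mem_univ a)
    exact norm_eq_zero.mp (pow_eq_zero_iff (two_ne_zero)|>.mp this)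

theorem one_sub_conj_ne_zero {v : Sph (j + 1)} (hv : v ∈ SphM j) : 1 - conj (v.1 0) ≠ 0 := by
  intro h
  apply apply_zero_ne_one hv
  have h2 : conj (v.1 0) = 1 := (sub_eq_zero.mp h).symm
  have := congrArg conj h2
  rwa [Complex.conj_conj, map_one] at this

/-- The vector `e₀ - v`. -/
def dv0 (v : Sph (j + 1)) : Fin (j + 1) → ℂ := fun a => (if a = 0 then 1 else 0) - v.1 a

theorem dv0_dot (v : Sph (j + 1)) : star (dv0 v) ⬝ᵥ dv0 v = (1 - v.1 0) + (1 - conj (v.1 0)) := by
  have h1 := Sph.sum_eq v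
  rw [Fin.sum_univ_succ] at h1
  rw [dotProduct, Fin.sum_univ_succ]
  simp only [dv0, Pi.star_apply, Complex.star_def, if_true, map_sub, map_one,
    Fin.succ_ne_zero, if_false, zero_sub, map_neg, neg_mul_neg]
  linear_combination h1

/-- The complex reflection which maps `e₀` to `v`. -/
def hh (v : Sph (j + 1)) : Matrix (Fin (j + 1)) (Fin (j + 1)) ℂ :=
  1 - (1 - conj (v.1 0))⁻¹ • Matrix.vecMulVec (dv0 v) (star (dv0 v))

theorem hh_mem {v : Sph (j + 1)} (hv : v ∈ SphM j) :
    hh v ∈ Matrix.unitaryGroup (Fin (j + 1)) ℂ := by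
  have hc := one_sub_conj_ne_zero hv
  have hc2 : 1 - v.1 0 ≠ 0 := sub_ne_zero.mpr (apply_zero_ne_one hv).symm
  rw [Matrix.mem_unitaryGroup_iff', Matrix.star_eq_conjTranspose, hh, Matrix.conjTranspose_sub,
    Matrix.conjTranspose_one, Matrix.conjTranspose_smul, Matrix.conjTranspose_vecMulVec,
    star_star]
  have e1 : star ((1 - conj (v.1 0))⁻¹) = (1 - v.1 0)⁻¹ := by
    rw [Complex.star_def, map_inv₀, map_sub, map_one, Complex.conj_conj]
  rw [e1, sub_mul, one_mul, mul_sub, mul_one, Matrix.smul_mul, Matrix.mul_smul,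
    Matrix.vecMulVec_mul_vecMulVec, dv0_dot, Matrix.vecMulVec_smul, smul_smul, smul_smul,
    sub_sub, ← add_sub_assoc, ← add_smul, ← sub_smul]
  rw [sub_eq_self]
  convert zero_smul ℂ _
  field_simp
  ring

theorem hh_col {v : Sph (j + 1)} (hv : v ∈ SphM j) (a : Fin (j + 1)) : hh v a 0 = v.1 a := by
  have hc := one_sub_conj_ne_zero hv
  rw [hh, Matrix.sub_apply, Matrix.one_apply, Matrix.smul_apply, Matrix.vecMulVec_apply]
  simp only [dv0, Pi.star_apply, Complex.star_def, if_true, map_sub, map_one, smul_eq_mul]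
  rw [mul_left_comm, inv_mul_cancel₀ hc]
  ring

theorem continuous_hh : ContinuousOn (hh (j := j)) (SphM j) := by
  have h1 : ∀ a, Continuous (fun v : Sph (j + 1) => v.1 a) := fun a =>
    (PiLp.continuous_apply 2 _ a).comp continuous_subtype_val
  have h2 : Continuous (fun v : Sph (j + 1) => dv0 v) :=
    continuous_pi (fun a => continuous_const.sub (h1 a))
  have h3 : ContinuousOn (fun v : Sph (j + 1) => (1 - conj (v.1 0))⁻¹) (SphM j) :=
    ContinuousOn.inv₀ (continuous_const.sub (Complex.continuous_conj.comp (h1 0))).continuousOn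
      (fun v hv => one_sub_conj_ne_zero hv)
  have h4 : ContinuousOn (fun v : Sph (j + 1) => Matrix.vecMulVec (dv0 v) (star (dv0 v)))
      (SphM j) := (h2.matrix_vecMulVec (continuous_star.comp h2)).continuousOn
  exact continuousOn_const.sub (h3.smul h4)

/-- The section of `q` over the complement of `e₀`. -/
def secU (j : ℕ) : C(SphM j, UG (j + 1)) where
  toFun v := ⟨hh v.1, hh_mem v.2⟩
  continuous_toFun := (continuousOn_iff_continuous_domRestrict.mp continuous_hh).subtype_mk _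

/-! ### The stabiliser of `e₀` -/

theorem stab_row {g : UG (j + 1)}
    (hg : ∀ a, (g : Matrix (Fin (j + 1)) (Fin (j + 1)) ℂ) a 0 = if a = 0 then 1 else 0)
    (b : Fin (j + 1)) :
    (g : Matrix (Fin (j + 1)) (Fin (j + 1)) ℂ) 0 b = if 0 = b then 1 else 0 := by
  rw [← UG.col_sum g 0 b, Fin.sum_univ_succ]
  simp [hg, Fin.succ_ne_zero]

theorem stab_mem {g : UG (j + 1)}
    (hg : ∀ a, (g : Matrix (Fin (j + 1)) (Fin (j + 1)) ℂ) a 0 = if a = 0 then 1 else 0) :
    (g : Matrix (Fin (j + 1)) (Fin (j + 1)) ℂ).submatrix Fin.succ Fin.succ ∈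
      Matrix.unitaryGroup (Fin j) ℂ := by
  rw [Matrix.mem_unitaryGroup_iff']
  ext b c
  have h := UG.col_sum g b.succ c.succ
  rw [Fin.sum_univ_succ, stab_row hg, stab_row hg, if_neg (Fin.succ_ne_zero b).symm, map_zero,
    zero_mul, zero_add] at h
  rw [Matrix.mul_apply, Matrix.one_apply]
  simp only [Fin.succ_inj] at h
  exact h

theorem stab_eq {g : UG (j + 1)}
    (hg : ∀ a, (g : Matrix (Fin (j + 1)) (Fin (j + 1)) ℂ) a 0 = if a = 0 then 1 else 0) :
    blk (succE j) ⟨_, stab_mem hg⟩ = g := by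
  apply Subtype.ext
  rw [blk_val]
  ext a b
  rw [Matrix.reindex_apply, Matrix.submatrix_apply]
  induction a using Fin.cases with
  | zero =>
    rw [stab_row hg]
    induction b using Fin.cases with
    | zero => simp [succE]
    | succ b => simp [succE, (Fin.succ_ne_zero b).symm]
  | succ a =>
    induction b using Fin.cases with
    | zero => simp [succE, hg, Fin.succ_ne_zero]
    | succ b => simp [succE]

/-! ### The trivialisation over the complement of `e₀` -/

/-- The part of the unitary group over the complement of `e₀`. -/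
def UgM (j : ℕ) : Set (UG (j + 1)) := qU j ⁻¹' SphM j

/-- The projection `UgM → SphM`. -/
def qm (j : ℕ) : C(UgM j, SphM j) := resMap (qU j) (mapsTo_preimage _ _)

/-- The element of the stabiliser. -/
def gm (j : ℕ) : C(UgM j, UG (j + 1)) :=
  ((secU j).comp (qm j))⁻¹ * incl (UgM j)

theorem gm_apply (u : UgM j) : gm j u = (secU j (qm j u))⁻¹ * u.1 := rfl

theorem gm_col (u : UgM j) (a : Fin (j + 1)) :
    ((gm j u : UG (j + 1)) : Matrix (Fin (j + 1)) (Fin (j + 1)) ℂ) a 0 = if a = 0 then 1 else 0 := by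
  rw [gm_apply]
  have h := UG.col_sum (secU j (qm j u)) a 0
  rw [← h]
  change ((star (secU j (qm j u)) * u.1 : UG (j + 1)) : Matrix (Fin (j + 1)) (Fin (j + 1)) ℂ) a 0 = _
  rw [Matrix.UnitaryGroup.mul_val, Matrix.mul_apply]
  refine Finset.sum_congr rfl (fun b _ => ?_)
  have h2 : ((secU j (qm j u) : UG (j + 1)) : Matrix (Fin (j + 1)) (Fin (j + 1)) ℂ) b 0 =
      (u.1 : Matrix (Fin (j + 1)) (Fin (j + 1)) ℂ) b 0 := hh_col (qm j u).2 b
  rw [h2]
  rfl

/-- The component in `U(j)`. -/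
def tauU (j : ℕ) : C(UgM j, UG j) where
  toFun u := ⟨_, stab_mem (gm_col u)⟩
  continuous_toFun := by
    refine Continuous.subtype_mk ?_ _
    exact (continuous_subtype_val.comp (gm j).continuous).matrix_submatrix _ _

theorem blk_tauU (u : UgM j) : blk (succE j) (tauU j u) = gm j u := stab_eq (gm_col u)

/-- `u = σ(q(u)) · (1 ⊕ τ(u))`. -/
theorem sec_mul_blk (u : UgM j) : secU j (qm j u) * blk (succE j) (tauU j u) = u.1 := by
  rw [blk_tauU, gm_apply, mul_inv_cancel_left]

/-- The first column of `σ(v) (1 ⊕ B)` is `v`. -/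
theorem qU_sec_mul_blk (v : SphM j) (B : UG j) : qU j (secU j v * blk (succE j) B) = v.1 := by
  apply Subtype.ext
  ext a
  rw [qU_apply, Matrix.UnitaryGroup.mul_val, Matrix.mul_apply, Fin.sum_univ_succ]
  have h1 : ∀ b : Fin (j + 1), ((blk (succE j) B : UG (j + 1)) :
      Matrix (Fin (j + 1)) (Fin (j + 1)) ℂ) b 0 = if b = 0 then 1 else 0 := by
    intro b
    rw [blk_val, Matrix.reindex_apply, Matrix.submatrix_apply]
    induction b using Fin.cases with
    | zero => simp [succE]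
    | succ b => simp [succE, Fin.succ_ne_zero]
  simp only [h1, if_true, mul_one, Fin.succ_ne_zero, if_false, mul_zero, Finset.sum_const_zero,
    add_zero]
  exact hh_col v.2 a

end

end Pool.Agent.Lib.MP_904b2a_gt
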